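import Pool.Agent.K1H70.MU.Real

/-!
# Iwasawa's `μ = 0` conjecture: reduction to fields with real places and CM fields

Let `p` be an odd prime, `ℚ_m` the `m`-th layer of the cyclotomic `ℤ_p`-extension of `ℚ`. For a number field `F` let
`F_m = F ℚ_m`. `MuZero p F` says that the Galois groups of the maximal extensions `M` of `F_m` which are abelian of
exponent `p` over `F_m`, unramified at all primes, and in which the primes above `p` split completely, have bounded
order. These groups are `X_m / p`, where `X_m` is, by class field theory, the `p`-part of the class group of `F_m`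
modulo the classes of the primes above `p`; so `MuZero p F` says that `X` is a finitely generated `ℤ_p`-module, that
is `μ(X) = 0`.

The theorem (all `p ≠ 2`):
1. Let `N` be a Galois number field and let `c` be an automorphism with `c² = 1` on `N`. Then `μ = 0` for `N` if and
   only if `μ = 0` for the field `N^c` of the elements fixed by `c` and for the field of the elements fixed by all the
   `g c g⁻¹ c⁻¹` (the largest subfield on which `c` commutes with all automorphisms). If `c` is a complex conjugation
   then the first field has a real place, and the second is totally real or a CM field.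
2. `μ = 0` for all number fields if and only if `μ = 0` for the number fields whose number of real embeddings is
   prime to `p` (in particular there is a real embedding) and for the CM fields of degree prime to `p`.

The group theory used (`Pool.Agent.Q60.MU`, `reduction`: a bound for `K` from bounds for subgroups which detect the
simple modules) is in the starting files; it assumes that every prime has a bounded number of prime factors in the
layers. This is proved here, and the dichotomy for involutions and the identification of the fields are new.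
-/

set_option autoImplicit false

open NumberField IntermediateField
open scoped Pointwise ComplexConjugate

namespace Pool.Agent.Results.MP_d0239a_nt.RealOrCM

/-- The field of algebraic numbers. -/
abbrev Qb := AlgebraicClosure ℚ

/-- The absolute Galois group of `ℚ`. -/
abbrev GQ := Gal(Qb/ℚ)

/-- For an odd prime `p`: `E` is the `m`-th layer of the cyclotomic `ℤ_p`-extension of `ℚ`, the subfield of degree
`p ^ m` of `ℚ(μ_{p^(m+1)})`. -/
def IsLayer (p m : ℕ) (E : IntermediateField ℚ Qb) : Prop :=
  E ≤ adjoin ℚ {z : Qb | z ^ p ^ (m + 1) = 1} ∧ Module.finrank ℚ E = p ^ m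

/-- `σ` is in the inertia group of the prime `P` of `Qb`. -/
def Inertial (σ : GQ) (P : Ideal (𝓞 Qb)) : Prop := ∀ y : 𝓞 Qb, σ • y - y ∈ P

/-- `M / E` is Galois with an abelian Galois group of exponent `p`: the automorphisms `σ`, `τ` over `E` map `M` to
`M`, commute on `M`, and `σ ^ p` is the identity on `M`. -/
def Elementary (p : ℕ) (E M : IntermediateField ℚ Qb) : Prop :=
  ∀ σ ∈ E.fixingSubgroup, ∀ x ∈ M, σ x ∈ M ∧ (σ ^ p) x = x ∧
    ∀ τ ∈ E.fixingSubgroup, σ (τ x) = τ (σ x)

/-- `M / E` is unramified at all primes: for all nonzero prime ideals `P` of the ring of algebraic integers, the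
inertia group over `E` acts trivially on `M`. -/
def Unramified (E M : IntermediateField ℚ Qb) : Prop :=
  ∀ P : Ideal (𝓞 Qb), P.IsPrime → P ≠ ⊥ → ∀ σ ∈ E.fixingSubgroup, Inertial σ P → ∀ x ∈ M, σ x = x

/-- The primes above `p` split completely in `M / E`: the decomposition groups over `E` of the prime ideals `P` of the
ring of algebraic integers with `p ∈ P` act trivially on `M`. -/
def SplitAbove (p : ℕ) (E M : IntermediateField ℚ Qb) : Prop :=
  ∀ P : Ideal (𝓞 Qb), P.IsPrime → (p : 𝓞 Qb) ∈ P → ∀ σ ∈ E.fixingSubgroup, σ • P = P →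
    ∀ x ∈ M, σ x = x

/-- `M / E` is Galois, its Galois group is abelian of exponent `p`, it is unramified at all primes, and the primes
above `p` split completely. -/
def SplitUnramified (p : ℕ) (E M : IntermediateField ℚ Qb) : Prop :=
  E ≤ M ∧ Elementary p E M ∧ Unramified E M ∧ SplitAbove p E M

/-- `μ = 0` for the number field `F` and the odd prime `p`: for all layers `F_m = F ℚ_m` of the cyclotomic
`ℤ_p`-extension of `F`, the finite extensions `M / F_m` with abelian Galois group of exponent `p` which are unramified
and in which the primes above `p` split completely have degree at most `C`. -/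
def MuZero (p : ℕ) (F : IntermediateField ℚ Qb) : Prop :=
  ∃ C : ℕ, ∀ (m : ℕ) (E M : IntermediateField ℚ Qb), IsLayer p m E → FiniteDimensional ℚ M →
    SplitUnramified p (F ⊔ E) M → Module.finrank ℚ M ≤ C * Module.finrank ℚ ↥(F ⊔ E)

/-- The field of the elements of `N` which are fixed by `c`. -/
noncomputable def fixedBy (N : IntermediateField ℚ Qb) (c : GQ) : IntermediateField ℚ Qb :=
  N ⊓ fixedField (Subgroup.zpowers c)

/-- The field of the elements of `N` which are fixed by all the `g c g⁻¹ c⁻¹`. -/
noncomputable def centralPart (N : IntermediateField ℚ Qb) (c : GQ) : IntermediateField ℚ Qb :=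
  N ⊓ fixedField (Subgroup.closure {x | ∃ g : GQ, x = g * c * g⁻¹ * c⁻¹})

/-- `c` is the complex conjugation for some embedding of the field of algebraic numbers. -/
def IsComplexConj (c : GQ) : Prop := ∃ φ : Qb →+* ℂ, ∀ x, φ (c x) = conj (φ x)

/-- The number of real embeddings of the number field `F`. -/
noncomputable def numReal (F : IntermediateField ℚ Qb) : ℕ := Nat.card (F →+* ℝ)

/-- The assertion for one Galois number field `N` and one automorphism `c` with `c² = 1` on `N`. -/
def Splitting (p : ℕ) (N : IntermediateField ℚ Qb) (c : GQ) : Prop :=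
  (MuZero p N ↔ MuZero p (fixedBy N c) ∧ MuZero p (centralPart N c)) ∧
    (IsComplexConj c → numReal (fixedBy N c) ≠ 0 ∧
      (IsTotallyReal (centralPart N c) ∨ IsCMField (centralPart N c)))

theorem mu_iff {p : ℕ} (hp : p.Prime) (F : IntermediateField ℚ Qb) :
    haveI : Fact p.Prime := ⟨hp⟩
    Pool.Agent.K1H70.MU.MuZ p F ↔ MuZero p F := by
  have : Fact p.Prime := ⟨hp⟩
  refine exists_congr fun C => ⟨fun h m E M hE hM hu => ?_, fun h m M hM hu => ?_⟩
  · obtain rfl := Pool.Agent.K1H70.MU.layer_eq p m hE.1 hE.2
    exact h m M hM ⟨hu.1, fun σ hσ x hx => (hu.2.1 σ hσ x hx).1,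
      fun σ hσ τ hτ x hx => (hu.2.1 σ hσ x hx).2.2 τ hτ, fun σ hσ x hx => (hu.2.1 σ hσ x hx).2.1,
      fun P h1 h2 => hu.2.2.1 P h1 h2, fun P h1 _ => hu.2.2.2 P h1⟩
  · refine h m (Pool.Agent.K1H70.MU.R p m) M
      ⟨Pool.Agent.K1H70.MU.R_le p m, Pool.Agent.K1H70.MU.R_finrank p m⟩ hM
      ⟨hu.le, fun σ hσ x hx => ⟨hu.normal σ hσ x hx, hu.exp σ hσ x hx,
        fun τ hτ => hu.comm σ hσ τ hτ x hx⟩, hu.unram, fun P h1 h3 => ?_⟩
    refine hu.split P h1 ?_ h3
    rintro rfl
    rw [Ideal.mem_bot] at h3
    exact hp.ne_zero (by exact_mod_cast h3)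

theorem result (p : ℕ) (hp : p.Prime) (hp2 : p ≠ 2) :
    (∀ (N : IntermediateField ℚ Qb) (c : GQ), FiniteDimensional ℚ N → IsGalois ℚ N →
      (∀ x ∈ N, c (c x) = x) → Splitting p N c) ∧
    ((∀ F : IntermediateField ℚ Qb, FiniteDimensional ℚ F → MuZero p F) ↔
      ∀ F : IntermediateField ℚ Qb, FiniteDimensional ℚ F →
        (¬ p ∣ numReal F ∨ IsCMField F ∧ ¬ p ∣ Module.finrank ℚ F) → MuZero p F) := by
  have hpf : Fact p.Prime := ⟨hp⟩
  refine ⟨fun N c hN hNn hc => ⟨?_, ?_⟩, ⟨fun h F hF _ => h F hF, fun h F hF => ?_⟩⟩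
  · rw [← mu_iff hp, ← mu_iff hp, ← mu_iff hp]
    exact Pool.Agent.K1H70.MU.involution p hp2 N hN hNn c hc
  · rintro ⟨φ, hφ⟩
    have hfd' : FiniteDimensional ℚ (fixedBy N c) :=
      Pool.Agent.K1H70.MU.fd_of_le (N := N) inf_le_left
    have hfin : Finite (fixedBy N c →+* ℝ) := by
      have hnf : NumberField (fixedBy N c) := ⟨⟩
      refine Finite.of_injective (fun σ : fixedBy N c →+* ℝ =>
        (Complex.ofRealHom.comp σ : fixedBy N c →+* ℂ)) ?_
      intro σ τ h
      ext y
      exact Complex.ofReal_injective (congrArg (fun f : fixedBy N c →+* ℂ => f y) h)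
    have hreal := Pool.Agent.K1H70.MU.real_place (φ := φ) (c := c) hφ (F := fixedBy N c)
      (fun x hx => Pool.Agent.K1H70.MU.mem_fixedBy hx)
    refine ⟨Nat.card_pos.ne', ?_⟩
    have hfd : FiniteDimensional ℚ (centralPart N c) :=
      Pool.Agent.K1H70.MU.fd_of_le (N := N) inf_le_left
    have hcen : ∀ g : Gal(Qb/ℚ), ∀ x ∈ centralPart N c, (g * c * g⁻¹ * c⁻¹) x = x :=
      fun g x hx => Pool.Agent.K1H70.MU.mem_centralPart hx g
    by_cases h : ∀ x ∈ centralPart N c, c x = x
    · exact Or.inl (Pool.Agent.K1H70.MU.totally_real (φ := φ) (c := c) hφ h hcen)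
    · push Not at h
      obtain ⟨x₀, hx₀, hne⟩ := h
      exact Or.inr (Pool.Agent.K1H70.MU.cm_field (φ := φ) (c := c) hφ hfd hcen hx₀ hne)
  · rw [← mu_iff hp]
    exact Pool.Agent.K1H70.MU.real_or_cm' p hp2
      (fun F hF hF' => (mu_iff hp F).2 (h F hF hF')) F hF

end Pool.Agent.Results.MP_d0239a_nt.RealOrCM
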