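import Pool.Agent.Results.MP_d0239a_nt.VectorFields
import Pool.Agent.K1H70.MR.Alg

/-!
# The Iwasawa `μ`-conjecture: fields with symmetries and groups of rank one

`Qa` is the field of algebraic numbers and number fields are finite extensions of `ℚ` inside `Qa`. For a number field
`F`, `cyc p F` is its cyclotomic `ℤ_p`-extension `F^cyc`, and `K(F^cyc)` is the maximal abelian unramified pro-`p`
extension of it in which all the primes above `p` split completely. `MuZeroInf p F` says that
`X = Gal(K(F^cyc)/F^cyc)` is topologically finitely generated, that is, finitely generated over `ℤ_p`; `MuZero p F`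
is the same with infinite primes allowed to ramify (the same for odd `p`), and `MuConjecture p` is the conjecture for
`p` and all number fields. (These definitions are those of the hand-in `VectorFields`, which is used.)

`Few p` (file `Pool.Agent.K1H70.MR.Alg`) is the set of the fields `E = ℚ(v)`, `v ≠ 0` a vector in a simple
`𝔽_p`-representation of `Gal(Qa/ℚ)` with finite image, with the following property. Let `N` be the Galois closure
of `E`. Then

* (`HasSymmetry`) `Gal(N/E)` contains an element of prime order different from `p`, in other words `[N : E]` is not
  a power of `p`; or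
* (`RankOne`) `Gal(N/ℚ)` contains no subgroup `ℤ/l × ℤ/l` for primes `l ≠ p`, and `[E : ℚ]` is not divisible by `p`.
  (If `E` does not have the first property, it is the fixed field of a Sylow `p`-subgroup of `Gal(N/ℚ)`; the Sylow
  `l`-subgroups of `Gal(N/ℚ)` for the other primes `l` are cyclic or generalized quaternion groups.)

Theorem. `MuConjecture p` holds if and only if `X` is finitely generated for the fields in `Few p`. For a finite Galois
extension `N/ℚ` it is finitely generated if and only if it is for the subfields of `N` in `Few p`.

So for instance Galois extensions `E/ℚ` need not be considered, except those of degree prime to `p` whose Galois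
groups have only cyclic or generalized quaternion Sylow subgroups.
-/

set_option autoImplicit false

namespace Pool.Agent.Results.MP_d0239a_nt.SymmetryOrRankOne

open Pool.Agent.K1H12.MV Pool.Agent.K1H70.MR
open Pool.Agent.Results.MP_d0239a_nt.VectorFields (MuZero MuConjecture)

theorem result (p : ℕ) [Fact p.Prime] :
    (MuConjecture p ↔ ∀ E ∈ Few p, FiniteDimensional ℚ E → MuZero p E) ∧
    ∀ N : IntermediateField ℚ Qa, IsGaloisExt ⊥ N →
      (MuZero p N ↔ ∀ E ∈ Few p, E ≤ N → MuZero p E) := by
  have hsel : Selects p (Few p) := fun T _ _ _ τ hs hτ => selects p T τ hs hτ
  obtain ⟨h1, h2⟩ := (Pool.Agent.Results.MP_d0239a_nt.VectorFields.result p).2.2.2.1 (Few p) hsel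
  exact ⟨h2, h1⟩

end Pool.Agent.Results.MP_d0239a_nt.SymmetryOrRankOne
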