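import Pool.Agent.K1H12.MV.Cyc

/-!
# The `μ`-conjecture and fields of vectors in simple representations

`Qa` is the field of algebraic numbers, `Za` the ring of algebraic integers, and number fields are finite extensions
of `ℚ` inside `Qa`. For a number field `F`, `cyc p F` is its cyclotomic `ℤ_p`-extension `F^cyc`, `maxExt p L` is the
maximal abelian pro-`p` extension `K(L)` of `L` which is unramified at every prime ideal and in which the primes
above `p` split completely, and `MuZero p F` says that `X = Gal(K(F^cyc)/F^cyc)` is topologically finitely generated,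
that is, finitely generated over `ℤ_p`. In `MuZeroInf` the infinite primes are unramified, too.

* For odd `p` the infinite primes do not matter, and for all `p` they do not matter for the conjecture as a whole.
* Let `N/F` be a Galois extension of number fields of any degree, and `𝓔` a set of intermediate fields such that every
  simple `𝔽_p[Gal(N/F)]`-module has a nonzero vector fixed by `Gal(N/E)` for some `E ∈ 𝓔`. Then `X` is finitely
  generated for `N` if and only if it is finitely generated for all `E ∈ 𝓔`.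
* Choose for every simple `𝔽_p`-representation with finite image of the Galois group of `ℚ` a nonzero vector `v`. The
  conjecture holds for `p` and all number fields if and only if it holds for the fields `ℚ(v)`. The vectors can be
  chosen such that the degrees of the fields `ℚ(v)` are prime to `p`.

The file imports the starting files `Pool.Agent.Q60.MU.*` (the inequality `main_ineq` for extensions of topological
groups and `exists_vector`). The passage to groups of infinite index, the finite generation, and the primes in the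
cyclotomic tower (`Pool.Agent.K1H12.MV.*`) are new.
-/

set_option autoImplicit false

namespace Pool.Agent.Results.MP_d0239a_nt.VectorFields

open Pool.Agent.K1H12.MV Pool.Agent.Q60.MU IntermediateField Module
open scoped Pointwise

/-- Every prime ideal is unramified in `M/L`. -/
def Unramified (L M : IntermediateField ℚ Qa) : Prop :=
  ∀ P : Ideal Za, P.IsPrime → ActsTrivially L M (P.inertia Gal(Qa/ℚ))

/-- The primes above `p` split completely in `M/L`. -/
def SplitAbove (p : ℕ) (L M : IntermediateField ℚ Qa) : Prop :=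
  ∀ P : Ideal Za, P.IsPrime → (p : Za) ∈ P → ActsTrivially L M (MulAction.stabilizer Gal(Qa/ℚ) P)

/-- `M/L` is Galois with an abelian Galois group whose exponent is a power of `p`, all prime ideals are unramified
and those above `p` split completely. -/
def SplitExt (p : ℕ) (L M : IntermediateField ℚ Qa) : Prop :=
  IsAbelianExt p L M ∧ Unramified L M ∧ SplitAbove p L M

/-- `M/L` is unramified at the infinite primes: the elements of `Gal(Qa/L)` which are the complex conjugation for an
embedding into `ℂ` act trivially on `M`. -/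
def RealUnramified (L M : IntermediateField ℚ Qa) : Prop :=
  ∀ φ : Qa →+* ℂ, ∀ σ ∈ L.fixingSubgroup, (∀ x, φ (σ x) = (starRingEnd ℂ) (φ x)) → ∀ x ∈ M, σ x = x

/-- the maximal abelian pro-`p` extension of `L` which is unramified at every prime ideal and in which every prime
above `p` splits completely -/
noncomputable def maxExt (p : ℕ) (L : IntermediateField ℚ Qa) : IntermediateField ℚ Qa := sSup {M | SplitExt p L M}

/-- the maximal abelian pro-`p` extension of `L` which is unramified at every prime, infinite ones included, and in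
which every prime above `p` splits completely -/
noncomputable def maxExtInf (p : ℕ) (L : IntermediateField ℚ Qa) : IntermediateField ℚ Qa :=
  sSup {M | SplitExt p L M ∧ RealUnramified L M}

/-- `X = Gal(K(F^cyc)/F^cyc)` is finitely generated (only prime ideals are considered). -/
def MuZero (p : ℕ) (F : IntermediateField ℚ Qa) : Prop := FGal (cyc p F) (maxExt p (cyc p F))

/-- `X = Gal(K(F^cyc)/F^cyc)` is finitely generated (infinite primes are unramified, too). -/
def MuZeroInf (p : ℕ) (F : IntermediateField ℚ Qa) : Prop := FGal (cyc p F) (maxExtInf p (cyc p F))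

/-- decomposition groups above `p`, inertia groups elsewhere -/
noncomputable def fam (p : ℕ) (P : Ideal Za) : Subgroup Gal(Qa/ℚ) := by
  classical
  exact if P.IsPrime then (if (p : Za) ∈ P then MulAction.stabilizer Gal(Qa/ℚ) P
    else P.inertia Gal(Qa/ℚ)) else ⊥

theorem smul_prime (g : Gal(Qa/ℚ)) (P : Ideal Za) : (g • P).IsPrime ↔ P.IsPrime := by
  have h1 : ∀ (g : Gal(Qa/ℚ)) (P : Ideal Za), P.IsPrime → (g • P).IsPrime := by
    intro g P hP
    refine ⟨fun h => hP.ne_top ?_, fun {x y} hxy => ?_⟩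
    · rw [Ideal.eq_top_iff_one, Ideal.mem_pointwise_smul_iff_inv_smul_mem, smul_one] at h
      exact (Ideal.eq_top_iff_one P).2 h
    · rw [Ideal.mem_pointwise_smul_iff_inv_smul_mem, smul_mul'] at hxy
      rw [Ideal.mem_pointwise_smul_iff_inv_smul_mem, Ideal.mem_pointwise_smul_iff_inv_smul_mem]
      exact hP.mem_or_mem hxy
  refine ⟨fun h => ?_, h1 g P⟩
  have h2 := h1 g⁻¹ _ h
  rwa [inv_smul_smul] at h2

theorem smul_nat (g : Gal(Qa/ℚ)) (n : ℕ) : g • (n : Za) = n := by
  apply Subtype.ext
  show g ((n : ℕ) : Qa) = ((n : ℕ) : Qa)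
  exact map_natCast g n

theorem nat_mem (g : Gal(Qa/ℚ)) (P : Ideal Za) (n : ℕ) : (n : Za) ∈ g • P ↔ (n : Za) ∈ P := by
  rw [Ideal.mem_pointwise_smul_iff_inv_smul_mem, smul_nat]

theorem inertia_conj (g : Gal(Qa/ℚ)) (P : Ideal Za) :
    ∀ x ∈ P.inertia Gal(Qa/ℚ), g * x * g⁻¹ ∈ (g • P).inertia Gal(Qa/ℚ) := by
  intro x hx y
  have h1 := hx (g⁻¹ • y)
  rw [Submodule.mem_toAddSubgroup, Ideal.mem_pointwise_smul_iff_inv_smul_mem, smul_sub, ← mul_smul,
    ← mul_assoc, ← mul_assoc, inv_mul_cancel, one_mul, mul_smul]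
  exact h1

theorem fam_fam (p : ℕ) : Fam p (fam p) := by
  classical
  refine ⟨fun g P x hx => ?_, fun P => ?_, fun P hP => ?_⟩
  · unfold fam at hx ⊢
    by_cases h1 : P.IsPrime
    · rw [if_pos h1] at hx
      rw [if_pos ((smul_prime g P).2 h1)]
      by_cases h2 : (p : Za) ∈ P
      · rw [if_pos h2] at hx
        rw [if_pos ((nat_mem g P p).2 h2)]
        have h3 : x • P = P := hx
        show (g * x * g⁻¹) • g • P = g • P
        rw [mul_smul, inv_smul_smul, mul_smul, h3]
      · rw [if_neg h2] at hx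
        rw [if_neg (fun h => h2 ((nat_mem g P p).1 h))]
        exact inertia_conj g P x hx
    · rw [if_neg h1, Subgroup.mem_bot] at hx
      rw [if_neg (fun h => h1 ((smul_prime g P).1 h)), Subgroup.mem_bot, hx, mul_one, mul_inv_cancel]
  · by_cases h1 : P.IsPrime
    · exact Or.inr h1
    · left
      unfold fam
      rw [if_neg h1]
  · unfold fam
    by_cases h1 : P.IsPrime
    · rw [if_pos h1, if_neg hP]
    · rw [if_neg h1]
      exact bot_le

theorem splitExt_iff {p : ℕ} {L M : IntermediateField ℚ Qa} : SplitExt p L M ↔ AdmI p (fam p) L M := by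
  classical
  constructor
  · rintro ⟨⟨h1, h2, h3, h4⟩, h5, h6⟩
    refine ⟨h1, h2, h3, h4, fun P σ hσ hσL x hx => ?_⟩
    unfold fam at hσ
    by_cases h1 : P.IsPrime
    · rw [if_pos h1] at hσ
      by_cases h2 : (p : Za) ∈ P
      · rw [if_pos h2] at hσ
        exact h6 P h1 h2 σ hσ hσL x hx
      · rw [if_neg h2] at hσ
        exact h5 P h1 σ hσ hσL x hx
    · rw [if_neg h1, Subgroup.mem_bot] at hσ
      rw [hσ]
      rfl
  · intro h
    have h0 : ∀ P : Ideal Za, P.IsPrime → (p : Za) ∈ P → ∀ σ ∈ MulAction.stabilizer Gal(Qa/ℚ) P,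
        σ ∈ L.fixingSubgroup → ∀ x ∈ M, σ x = x := by
      intro P h1 h2 σ hσ hσL x hx
      refine h.triv P σ ?_ hσL x hx
      unfold fam
      rw [if_pos h1, if_pos h2]
      exact hσ
    refine ⟨⟨h.le, h.normal, h.comm, h.exp⟩, fun P h1 σ hσ hσL x hx => ?_, h0⟩
    by_cases h2 : (p : Za) ∈ P
    · exact h0 P h1 h2 σ (Ideal.inertia_le_stabilizer P hσ) hσL x hx
    · refine h.triv P σ ?_ hσL x hx
      unfold fam
      rw [if_pos h1, if_neg h2]
      exact hσ

theorem maxExt_eq (p : ℕ) (L : IntermediateField ℚ Qa) : maxExt p L = maxI p (fam p) L := by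
  unfold maxExt maxI
  congr 1
  ext M
  exact splitExt_iff

theorem muZero_iff {p : ℕ} {F : IntermediateField ℚ Qa} : MuZero p F ↔ FGc p (fam p) F := by
  unfold MuZero FGc
  rw [maxExt_eq]

theorem real_odd {p : ℕ} (hp : p.Prime) (hp2 : p ≠ 2) {L M : IntermediateField ℚ Qa}
    (h : SplitExt p L M) : RealUnramified L M := by
  intro φ σ hσ hφ x hx
  obtain ⟨k, hk⟩ := h.1.2.2.2
  have h2 : σ ^ 2 = 1 := by
    apply AlgEquiv.ext
    intro y
    apply φ.injective
    rw [sq, AlgEquiv.mul_apply, hφ, hφ, Complex.conj_conj]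
    rfl
  have hodd : Odd (p ^ k) := (hp.odd_of_ne_two hp2).pow
  obtain ⟨m, hm⟩ := hodd
  have h3 := hk σ hσ x hx
  rwa [hm, pow_succ, pow_mul, h2, one_pow, one_mul] at h3

theorem maxInf_odd {p : ℕ} (hp : p.Prime) (hp2 : p ≠ 2) (L : IntermediateField ℚ Qa) :
    maxExtInf p L = maxExt p L := by
  unfold maxExtInf maxExt
  congr 1
  ext M
  exact ⟨fun h => h.1, fun h => ⟨h, real_odd hp hp2 h⟩⟩

theorem maxInf_le (p : ℕ) (L : IntermediateField ℚ Qa) : maxExtInf p L ≤ maxExt p L :=
  sSup_le_sSup fun _ h => h.1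

theorem maxInf_i {p : ℕ} {L : IntermediateField ℚ Qa} {i : Qa} (hi : i ^ 2 = -1) (hiL : i ∈ L) :
    maxExtInf p L = maxExt p L := by
  unfold maxExtInf maxExt
  congr 1
  ext M
  refine ⟨fun h => h.1, fun h => ⟨h, fun φ σ hσ hφ => ?_⟩⟩
  exfalso
  have h1 : σ i = i := (mem_fixingSubgroup_iff _ _).1 hσ i hiL
  have h2 := hφ i
  rw [h1] at h2
  have h3 : (φ i) ^ 2 = -1 := by rw [← map_pow, hi, map_neg, map_one]
  have h4 := Complex.conj_eq_iff_im.1 h2.symm
  have h5 := congrArg Complex.re h3
  rw [sq, Complex.mul_re, h4, mul_zero, sub_zero] at h5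
  have h6 : (0 : ℝ) ≤ (φ i).re * (φ i).re := mul_self_nonneg _
  rw [h5] at h6
  norm_num at h6

theorem exists_i : ∃ i : Qa, i ^ 2 = -1 := by
  have h1 : IsAlgClosed Qa := AlgebraicClosure.isAlgClosed ℚ
  exact IsAlgClosed.exists_pow_nat_eq (-1 : Qa) two_pos

theorem inf_all {p : ℕ} [Fact p.Prime] :
    (∀ F : IntermediateField ℚ Qa, FiniteDimensional ℚ F → MuZeroInf p F) ↔
      ∀ F : IntermediateField ℚ Qa, FiniteDimensional ℚ F → MuZero p F := by
  constructor
  · intro h F hF
    obtain ⟨i, hi⟩ := exists_i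
    have hfi : FiniteDimensional ℚ (IntermediateField.adjoin ℚ ({i} : Set Qa)) :=
      adjoin.finiteDimensional (isAlg_Qa.isAlgebraic i).isIntegral
    have hN : FiniteDimensional ℚ ↥(F ⊔ IntermediateField.adjoin ℚ ({i} : Set Qa)) :=
      inferInstance
    have h1 := h (F ⊔ IntermediateField.adjoin ℚ ({i} : Set Qa)) hN
    have h2 : i ∈ cyc p (F ⊔ IntermediateField.adjoin ℚ ({i} : Set Qa)) := by
      have h3 : IntermediateField.adjoin ℚ ({i} : Set Qa) ≤
          cyc p (F ⊔ IntermediateField.adjoin ℚ ({i} : Set Qa)) := le_sup_right.trans le_sup_left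
      exact h3 (IntermediateField.subset_adjoin ℚ _ (Set.mem_singleton i))
    have h3 : MuZero p (F ⊔ IntermediateField.adjoin ℚ ({i} : Set Qa)) := by
      unfold MuZeroInf at h1
      rw [maxInf_i hi h2] at h1
      exact h1
    rw [muZero_iff] at h3 ⊢
    exact h3.of_le le_sup_left
  · intro h F hF
    obtain ⟨S, hS, hx⟩ := h F hF
    exact ⟨S, hS, fun x hxm hfix => hx x (maxInf_le p _ hxm) hfix⟩

/-- the conjecture for the prime `p` and all number fields -/
def MuConjecture (p : ℕ) : Prop := ∀ F : IntermediateField ℚ Qa, FiniteDimensional ℚ F → MuZeroInf p F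

/-- the conjecture for the prime `p` and all number fields (only prime ideals are considered) -/
def MuConjectureFin (p : ℕ) : Prop := ∀ F : IntermediateField ℚ Qa, FiniteDimensional ℚ F → MuZero p F

/-- `X` is finitely generated for `N` if and only if it is for all the fields in detecting sets of intermediate
fields of `N/F`. -/
def DetectionHolds (p : ℕ) [Fact p.Prime] : Prop :=
  ∀ F N : IntermediateField ℚ Qa, IsGaloisExt F N → ∀ 𝓔, Detecting p F N 𝓔 →
    (MuZero p N ↔ ∀ E ∈ 𝓔, MuZero p E)

/-- `X` is finitely generated for the Galois extension `N` of `ℚ` if and only if it is for all the subfields of `N`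
in the set `𝓥`. -/
def LocalReduction (p : ℕ) (𝓥 : Set (IntermediateField ℚ Qa)) : Prop :=
  ∀ N : IntermediateField ℚ Qa, IsGaloisExt ⊥ N → (MuZero p N ↔ ∀ E ∈ 𝓥, E ≤ N → MuZero p E)

theorem result (p : ℕ) [Fact p.Prime] :
    (p ≠ 2 → ∀ F : IntermediateField ℚ Qa, MuZeroInf p F ↔ MuZero p F) ∧
    (MuConjecture p ↔ MuConjectureFin p) ∧ DetectionHolds p ∧
    (∀ 𝓥, Selects p 𝓥 → LocalReduction p 𝓥 ∧
      (MuConjecture p ↔ ∀ E ∈ 𝓥, FiniteDimensional ℚ E → MuZero p E)) ∧
    Selects p (PrimeTo p) := by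
  have hsub : ∀ E N : IntermediateField ℚ Qa, FiniteDimensional ℚ N → E ≤ N → MuZero p N → MuZero p E := by
    intro E N hN hEN h
    rw [muZero_iff] at h ⊢
    exact h.of_le hEN
  have hbot : (⊥ : IntermediateField ℚ Qa).fixingSubgroup = ⊤ := fixingSubgroup_bot
  have hsel : ∀ 𝓥 : Set (IntermediateField ℚ Qa), Selects p 𝓥 → LocalReduction p 𝓥 := by
    rintro 𝓥 h𝓥 N ⟨hN, -, hNn⟩
    refine ⟨fun h E _ hE => hsub E N hN hE h, fun h => ?_⟩
    rw [muZero_iff]
    exact FGc.reduction (fam_fam p) h𝓥 (fun σ => hNn σ (by rw [hbot]; exact Subgroup.mem_top σ))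
      fun E hE hEN => muZero_iff.1 (h E hE hEN)
  refine ⟨fun hp2 F => ?_, inf_all, ?_, fun 𝓥 h𝓥 => ⟨hsel 𝓥 h𝓥, ?_⟩, selects_prime_to p⟩
  · unfold MuZeroInf MuZero
    rw [maxInf_odd Fact.out hp2]
  · rintro F N ⟨hN, hFN, hNn⟩ 𝓔 hdet
    refine ⟨fun h E hE => hsub E N hN (hdet.1 E hE).2 h, fun h => ?_⟩
    rw [muZero_iff]
    refine FGc.detect (fam_fam p) hFN hNn ?_
    intro S _ _ _ τ hτ hs
    obtain ⟨_, ⟨E, hE, rfl⟩, v, hv, hfix⟩ := hdet.2 S τ hτ hs
    exact ⟨E, ⟨(hdet.1 E hE).1, (hdet.1 E hE).2, muZero_iff.1 (h E hE)⟩, v, hv, hfix⟩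
  · rw [MuConjecture, inf_all]
    refine ⟨fun h E _ hE => h E hE, fun h F hF => ?_⟩
    obtain ⟨N, hN, hFN, hNn, -⟩ := exists_closure F
    refine hsub F N hN hFN ((hsel 𝓥 h𝓥 N ⟨hN, bot_le, fun σ _ => hNn σ⟩).2 fun E hE hEN =>
      h E hE ?_)
    exact Submodule.finiteDimensional_of_le (S₁ := Subalgebra.toSubmodule E.toSubalgebra)
      (S₂ := Subalgebra.toSubmodule N.toSubalgebra) hEN

end Pool.Agent.Results.MP_d0239a_nt.VectorFields
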